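import Pool.Agent.R205.BohrThick

/-!
# Joint return times along `t ^ (3/2)` and `α t ^ (3/2) + t` need not be thick

Negative answer to Q1, for every irrational (indeed every real) `α`.  The set is
`E = {M y : y ≥ 1, ‖y α‖ < 1 / (2 M)}` with `M` larger than `2 (2 + |α|) + 1`: if `⌊f₁ n⌋` and
`⌊f₂ n⌋` are differences of elements of `E` then `n = f₂ n - α f₁ n` lies within `2 + |α|` of a
multiple of `M`.
-/

set_option autoImplicit false

open Filter

namespace Pool.Agent.Results.MP_df75a5_an.BohrNotThick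

/-- The upper density of a set of natural numbers. -/
noncomputable def upperDensity (E : Set ℕ) : ℝ :=
  limsup (fun N : ℕ => ((E ∩ Set.Icc 1 N).ncard : ℝ) / N) atTop

/-- `R f E` is the set of the `n ≥ 1` for which some `x ∈ E` satisfies `x + ⌊f n⌋ ∈ E`. -/
def R (f : ℝ → ℝ) (E : Set ℕ) : Set ℕ :=
  {n | 1 ≤ n ∧ ∃ x ∈ E, ∃ y ∈ E, (y : ℤ) = x + ⌊f n⌋}

/-- A set of natural numbers is thick if it contains arbitrarily long intervals. -/
def Thick (S : Set ℕ) : Prop := ∀ L : ℕ, ∃ a : ℕ, 1 ≤ a ∧ ∀ i : ℕ, i ≤ L → a + i ∈ S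

/-- For every real `α` (in particular for every irrational `α`) there is a set `E` of positive
integers of positive upper density such that `R f₁ E ∩ R f₂ E` is not thick, where
`f₁ t = t ^ (3/2)` and `f₂ t = α t ^ (3/2) + t`. -/
theorem result (α : ℝ) : ∃ E : Set ℕ, (∀ x ∈ E, 1 ≤ x) ∧ 0 < upperDensity E ∧
    ¬ Thick (R (fun t => t ^ (3 / 2 : ℝ)) E ∩ R (fun t => α * t ^ (3 / 2 : ℝ) + t) E) :=
  Pool.Agent.R205.BohrThick.main α

end Pool.Agent.Results.MP_df75a5_an.BohrNotThick
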